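import Pool.Agent.TH646.TT.Grid
import Pool.Agent.V11290.FD.Fam4

/-!
# Primes at a distance of at most a power of the logarithm, on all translates of arbitrary sets by the integers
near `t α + s`, for almost every `α` of a set of positive Fourier dimension

Let `μ` be ANY compactly supported probability measure on the line whose Fourier transform decays like some power, with an
arbitrarily small exponent `σ > 0`. (Such measures live on many sets of Lebesgue measure zero and of arbitrarily small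
dimension: on the badly approximable numbers with bounded partial quotients (Kaufman), on the sets of `τ`-well approximable
numbers (Kaufman), on limit sets of convex cocompact Fuchsian groups (Bourgain, Dyatlov), on random Salem sets, ...).
Let arbitrary large sets `𝒜` of integers in `[1, N]`, `N ≍ t j`, be given, at most `log ^ T (t j)` of them for every
`j`. For almost every `α` at least almost a quarter of the elements of every translate `𝒜 + b` of one of the given sets by
an integer `b` near `t j α + s j` are followed by the right number of primes (up to a constant) in intervals of length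
`log ^ K N`.

Proof: the law of a random rounding of `t α` is approximated by a finite family of integers (with multiplicities); its
additive energy of order `p ≥ 1 / σ` is nearly minimal since the characteristic function of the rounding is small away
from the integers (a Fourier series with the coefficients `sinc²`). The theorem of the library TH646.TT on translates by the
members of thin families (starting files) is applied to these families, the result is carried back to the measure, and
then the lemma of Borel and Cantelli is applied.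
-/

set_option autoImplicit false

namespace Pool.Agent.Results.MP_711652_nt.FourierDecay

open Finset MeasureTheory

/-- The number of the primes in `(n, n + y]`. -/
def primesIn (n y : ℕ) : ℕ := ((Ioc n (n + y)).filter Nat.Prime).card

open Classical in
/-- The translate `A + b` has good points: for all integers `y` with `(log N) ^ K ≤ y ≤ N` the average of
`primesIn (a + b) y` over the `a ∈ A` differs from `y / log N` by at most `ε y / log N`, and at least
`(1 / 4 - ε) |A|` elements `a` of `A` have at least `ε y / log N` primes in `(a + b, a + b + y]`. -/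
noncomputable def Good (ε : ℝ) (K N : ℕ) (A : Finset ℕ) (b : ℕ) : Prop :=
  ∀ y : ℕ, Real.log N ^ K ≤ y → y ≤ N →
    |(∑ a ∈ A, (primesIn (a + b) y : ℝ)) * Real.log N - A.card * y| ≤ ε * (A.card * y) ∧
    (1 / 4 - ε) * A.card ≤ ((A.filter fun a => ε * y ≤ (primesIn (a + b) y : ℝ) * Real.log N).card : ℝ)

open Pool.Agent.H373R2.T7 (energy) in
lemma general (p B C U : ℕ) (ε : ℝ) (hε : 0 < ε) (hε1 : ε ≤ 1 / 4) : ∃ K : ℕ, ∀ N : ℕ, K ≤ N →
    ∀ (x : ℕ) (s : ℕ → ℤ), (∀ m ∈ Icc 1 x, |s m| ≤ B * N) →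
    (energy p x s : ℝ) * N ≤ Real.log N ^ C * (x : ℝ) ^ (2 * p) →
    ∀ A : Finset ℕ, A ⊆ Icc 1 N → N / Real.log N ^ C ≤ (A.card : ℝ) →
    ∀ S : Finset ℕ, S ⊆ Icc 1 x → (∀ m ∈ S, 0 < s m ∧ s m ≤ N ∧ ¬ Good ε K N A (s m).toNat) →
      (S.card : ℝ) ≤ x / Real.log N ^ U := by
  classical
  obtain ⟨K, hK⟩ := Pool.Agent.TH646.TT.cnt_full p B C U ε hε hε1
  obtain ⟨N₀, h0⟩ := Filter.eventually_atTop.1 (hK.and (Pool.Agent.W301.SS.ev_L 1))
  refine ⟨max K N₀, fun N hN x s hs hE A hA hAN S hS1 hS2 => ?_⟩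
  obtain ⟨h1, h2⟩ := h0 N ((le_max_right _ _).trans hN)
  have hℓ : 0 < Real.log N := by linarith
  rw [div_le_iff₀ (by positivity)] at hAN
  refine h1 x s hs hE A hA hAN S hS1 ?_
  intro m hm
  obtain ⟨h4, h5, h6⟩ := hS2 m hm
  refine ⟨h4, h5, fun h7 => h6 ?_⟩
  intro y hy1 hy2
  have hy1' : Real.log N ^ K ≤ y := (pow_le_pow_right₀ h2 (le_max_left _ _)).trans hy1
  exact h7 y hy1' hy2

/-- Let `μ` be a probability measure on `[-B, B]` with `|μ^(ξ)| ≤ C |ξ| ^ (-σ)` for `|ξ| ≥ 1` and some `C` and `σ > 0`.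
Let `t j ≥ 2` and `|s j| ≤ B t j` be real numbers, where `j` ranges over a set `J`, such that the sum of the
`1 / log ^ V (t j)` converges for some `V`. Let `D ≥ 1` and `N j = D ⌈t j⌉`, and for every `j` let at most `log ^ T (t j)`
arbitrary sets `𝒜 j l` of at least `N j / log ^ T (t j)` integers in `[1, N j]` be given, and let `0 < ε ≤ 1 / 4`. Then for
`μ`-almost every `α` and every `A` there is a `K` such that for all but finitely many `j`: for ALL integers `b` in `[1, N j]`
with `|b - (t j α + s j)| ≤ log ^ A (t j)`, ALL the sets `𝒜 j l` and ALL integers `y` with `(log N j) ^ K ≤ y ≤ N j`: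
the average over `a ∈ 𝒜 j l` of the number of the primes in `(a + b, a + b + y]` differs from `y / log (N j)` by at most
`ε y / log (N j)`, and at least `(1 / 4 - ε) |𝒜 j l|` elements `a` of `𝒜 j l` have at least `ε y / log (N j)` primes in
`(a + b, a + b + y]`. -/
theorem result (μ : Measure ℝ) [IsProbabilityMeasure μ] (B : ℝ) (hμ : ∀ᵐ α ∂μ, |α| ≤ B)
    (C σ : ℝ) (hσ : 0 < σ) (hdec : ∀ ξ : ℝ, 1 ≤ |ξ| → ‖charFun μ ξ‖ ≤ C * |ξ| ^ (-σ))
    (J : Type) (t s : J → ℝ) (ht : ∀ j, 2 ≤ t j) (hs : ∀ j, |s j| ≤ B * t j)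
    (hsum : ∃ V : ℕ, Summable fun j => 1 / Real.log (t j) ^ V)
    (D : ℕ) (hD : 1 ≤ D) (T : ℕ) (L : J → ℕ) (hL : ∀ j, (L j : ℝ) ≤ Real.log (t j) ^ T)
    (𝒜 : (j : J) → Fin (L j) → Finset ℕ) (h𝒜 : ∀ j l, 𝒜 j l ⊆ Icc 1 (D * ⌈t j⌉₊))
    (hcard : ∀ j l, ((D * ⌈t j⌉₊ : ℕ) : ℝ) / Real.log (t j) ^ T ≤ (𝒜 j l).card)
    (ε : ℝ) (hε : 0 < ε) (hε1 : ε ≤ 1 / 4) :
    ∀ᵐ α ∂μ, ∀ A : ℕ, ∃ K : ℕ,
      {j | ¬ ∀ b : ℕ, 0 < b → b ≤ D * ⌈t j⌉₊ → |(b : ℝ) - (t j * α + s j)| ≤ Real.log (t j) ^ A →
        ∀ l, Good ε K (D * ⌈t j⌉₊) (𝒜 j l) b}.Finite := by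
  classical
  obtain ⟨V, hV⟩ := hsum
  obtain ⟨p, hp⟩ := exists_nat_ge (1 / σ)
  obtain ⟨B₁, hB₁⟩ := exists_nat_ge (2 * (|B| + 1) + 8)
  have hpσ : 1 ≤ ((p + 1 : ℕ) : ℝ) * σ := by
    rw [div_le_iff₀ hσ] at hp
    push_cast
    nlinarith
  choose K hK using fun A : ℕ => general (p + 1) B₁ (T + 2) (V + A + 2 + T) ε hε hε1
  have h := Pool.Agent.V11290.FD.abs_one' (|B| + 1) C σ (by positivity) hσ μ hdec
    (by
      filter_upwards [hμ] with α hα
      linarith [le_abs_self B]) t s ht V hV (fun j => (hs j).trans (by nlinarith [ht j, le_abs_self B])) (p + 1) (by omega) hpσ B₁ hB₁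
    (fun A _ j n => 0 < n → n ≤ ((D * ⌈t j⌉₊ : ℕ) : ℤ) → ∀ l, Good ε (K A) (D * ⌈t j⌉₊) (𝒜 j l) n.toNat) (by
    intro A i
    refine ⟨max (K A) (Real.exp (D + 1)), fun j hj x v hx hv hE 𝒮 h𝒮 hbad => ?_⟩
    have htj2 := ht j
    have hN1 : t j ≤ (⌈t j⌉₊ : ℝ) := Nat.le_ceil _
    have hNK : K A ≤ ⌈t j⌉₊ := by
      have : (K A : ℝ) ≤ (⌈t j⌉₊ : ℝ) := ((le_max_left _ _).trans hj).trans hN1
      exact_mod_cast this
    obtain ⟨M, hM⟩ : ∃ M : ℕ, M = ⌈t j⌉₊ := ⟨_, rfl⟩
    obtain ⟨N, hN⟩ : ∃ N : ℕ, N = D * ⌈t j⌉₊ := ⟨_, rfl⟩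
    rw [← hM] at hN1 hNK hE hv ⊢
    have hND : N = D * M := by rw [hN, hM]
    have hMN : M ≤ N := by rw [hND]; exact Nat.le_mul_of_pos_left _ hD
    have hlogt : (D : ℝ) + 1 ≤ Real.log (t j) := by
      rw [Real.le_log_iff_exp_le (by linarith)]
      exact (le_max_right _ _).trans hj
    have hlog1 : Real.log (t j) ≤ Real.log M := Real.log_le_log (by linarith) hN1
    have hM0 : (0 : ℝ) < M := by linarith
    have hlog2 : Real.log M ≤ Real.log N := Real.log_le_log hM0 (by exact_mod_cast hMN)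
    have hD1 : (1 : ℝ) ≤ D := by exact_mod_cast hD
    have hlog3 : 1 ≤ Real.log (t j) := by linarith
    have hlog0 : 0 < Real.log (t j) := by linarith
    have hlogM0 : 0 < Real.log (M : ℝ) := by linarith
    rw [← hN] at hbad
    have hbad' : ∀ m ∈ 𝒮, 0 < v m ∧ v m ≤ (N : ℤ) ∧ ∃ l, ¬ Good ε (K A) N (𝒜 j l) (v m).toNat := by
      intro m hm
      have h1 := hbad m hm
      push Not at h1
      exact h1
    have hone : ∀ l : Fin (L j), ((𝒮.filter (fun m => ¬ Good ε (K A) N (𝒜 j l) (v m).toNat)).card : ℝ) ≤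
        x / Real.log N ^ (V + A + 2 + T) := by
      intro l
      refine hK A N (hNK.trans hMN) x v ?_ ?_ (𝒜 j l) (by rw [hN]; exact h𝒜 j l) ?_ _ ((filter_subset _ _).trans h𝒮) ?_
      · intro m hm
        refine (hv m hm).trans ?_
        apply mul_le_mul_of_nonneg_left _ (Int.natCast_nonneg _)
        exact_mod_cast hMN
      · have e1 : (N : ℝ) = D * M := by rw [hND]; push_cast; rfl
        calc (Pool.Agent.H373R2.T7.energy (p + 1) x v : ℝ) * N = D * (Pool.Agent.H373R2.T7.energy (p + 1) x v * M) := by rw [e1]; ring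
          _ ≤ D * (Real.log M * (x : ℝ) ^ (2 * (p + 1))) := mul_le_mul_of_nonneg_left hE (Nat.cast_nonneg _)
          _ = (D * Real.log M) * (x : ℝ) ^ (2 * (p + 1)) := by ring
          _ ≤ Real.log N ^ (T + 2) * (x : ℝ) ^ (2 * (p + 1)) := by
              apply mul_le_mul_of_nonneg_right _ (by positivity)
              calc (D : ℝ) * Real.log M ≤ Real.log N * Real.log N :=
                    mul_le_mul (by linarith) hlog2 (by linarith) (by linarith)
                _ = Real.log N ^ 2 := by ring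
                _ ≤ Real.log N ^ (T + 2) := pow_le_pow_right₀ (by linarith) (by omega)
      · refine le_trans ?_ (hcard j l)
        rw [← hN]
        apply div_le_div_of_nonneg_left (Nat.cast_nonneg _) (by positivity)
        refine (pow_le_pow_left₀ (by linarith) (hlog1.trans hlog2) T).trans ?_
        exact pow_le_pow_right₀ (by linarith) (by omega)
      · intro m hm
        rw [mem_filter] at hm
        have h1 := hbad' m hm.1
        exact ⟨h1.1, h1.2.1, hm.2⟩
    have hsub : 𝒮 ⊆ univ.biUnion (fun l : Fin (L j) => 𝒮.filter (fun m => ¬ Good ε (K A) N (𝒜 j l) (v m).toNat)) := by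
      intro m hm
      obtain ⟨l, hl⟩ := (hbad' m hm).2.2
      rw [mem_biUnion]
      exact ⟨l, mem_univ _, mem_filter.2 ⟨hm, hl⟩⟩
    have hx0 : (0 : ℝ) ≤ x := Nat.cast_nonneg _
    calc (𝒮.card : ℝ) ≤ ((univ.biUnion (fun l : Fin (L j) => 𝒮.filter (fun m => ¬ Good ε (K A) N (𝒜 j l) (v m).toNat))).card : ℝ) := by
          exact_mod_cast card_le_card hsub
      _ ≤ ∑ l : Fin (L j), ((𝒮.filter (fun m => ¬ Good ε (K A) N (𝒜 j l) (v m).toNat)).card : ℝ) := by
          exact_mod_cast card_biUnion_le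
      _ ≤ ∑ _l : Fin (L j), x / Real.log N ^ (V + A + 2 + T) := sum_le_sum fun l _ => hone l
      _ = L j * (x / Real.log N ^ (V + A + 2 + T)) := by
          rw [sum_const, card_univ, Fintype.card_fin, nsmul_eq_mul]
      _ ≤ Real.log M ^ T * (x / Real.log M ^ (V + A + 2 + T)) := by
          apply mul_le_mul ((hL j).trans (pow_le_pow_left₀ (by linarith) hlog1 T)) _ (by positivity) (by positivity)
          apply div_le_div_of_nonneg_left hx0 (by positivity)
          exact pow_le_pow_left₀ (by linarith) hlog2 _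
      _ = x / Real.log M ^ (V + A + 2) := by
          have : Real.log (M : ℝ) ≠ 0 := by linarith
          rw [pow_add (Real.log (M : ℝ)) (V + A + 2) T]
          field_simp)
  filter_upwards [h] with α hα A
  refine ⟨K A, (hα A 0).subset ?_⟩
  intro j hj
  rw [Set.mem_ofPred_eq] at hj ⊢
  intro hall
  apply hj
  intro b hb0 hbN hb l
  have h1 := hall (b : ℤ) (by exact_mod_cast hb) (by exact_mod_cast hb0) (by exact_mod_cast hbN) l
  rwa [Int.toNat_natCast] at h1

end Pool.Agent.Results.MP_711652_nt.FourierDecay
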