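import Pool.Agent.H622R3.SP.Good
import Pool.Agent.H622R3.SP.Mult

/-!
# MP_711652_nt: primes at a distance of at most `K log` below multiples of almost every real number

For `0 < δ < 1` there are `K`, `lam > 0`, and for every `0 < θ < 1` there are `c, κ > 0`, such that for
all large `Y` and all real `x` in `[Y, 2 Y]` outside a set of measure at most `Y ^ (1 - κ)` the
following holds: for at least `c Y ^ θ` of the positive integers `k ≤ Y ^ θ`, the number `z = k x`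
satisfies `(1 - δ) H / log z ≤ #{primes in (z - H, z)} ≤ lam H / log z` simultaneously for ALL `H`
between `K log z` and `z`. In particular there is a prime in `(z - K log z, z)`.

The set of the exceptional `x` is smaller than the whole by a power of `Y`, and the multipliers `k` do
not depend on `H`.

Source: `Pool.Agent.H622R3.SP` of the starting library (`Good.lean`, `Mult.lean`), never handed in.
-/

set_option autoImplicit false

open Filter Topology MeasureTheory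

namespace Pool.Agent.Results.MP_711652_nt.MultiplesOfAlmostAllReals

/-- The number of primes in the open interval `(z - H, z)`. -/
noncomputable def primesBelow (z H : ℝ) : ℕ := {p : ℕ | p.Prime ∧ z - H < p ∧ (p : ℝ) < z}.ncard

/-- For all `H` between `K log z` and `z` the number of primes in `(z - H, z)` is between
`(1 - δ) H / log z` and `lam H / log z`. -/
def GoodAtAllScales (δ K lam z : ℝ) : Prop := ∀ H : ℝ, K * Real.log z ≤ H → H ≤ z →
  (1 - δ) * H / Real.log z ≤ primesBelow z H ∧ (primesBelow z H : ℝ) ≤ lam * H / Real.log z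

/-- **Main theorem.** -/
theorem result (δ : ℝ) (hδ0 : 0 < δ) (hδ1 : δ < 1) : ∃ K lam : ℝ, 0 < K ∧ 0 < lam ∧
    ∀ θ : ℝ, 0 < θ → θ < 1 → ∃ c κ : ℝ, 0 < c ∧ 0 < κ ∧ ∃ Y₀ : ℝ, ∀ Y : ℝ, Y₀ ≤ Y →
      ∃ E : Set ℝ, MeasurableSet E ∧ volume E ≤ ENNReal.ofReal (Y ^ (1 - κ)) ∧
        ∀ x : ℝ, Y ≤ x → x ≤ 2 * Y → x ∉ E →
          c * Y ^ θ ≤ ({k : ℕ | 1 ≤ k ∧ (k : ℝ) ≤ Y ^ θ ∧
            GoodAtAllScales δ K lam (k * x)}.ncard : ℝ) := by
  classical
  obtain ⟨K, lam, c₀, hK, hlam, hc₀, h⟩ := Pool.Agent.H622R3.SP.back_all_scales δ hδ0 hδ1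
  refine ⟨K, lam, hK, hlam, fun θ hθ0 hθ1 => ?_⟩
  obtain ⟨S, hS⟩ : ∃ S : Set ℕ, S = {m : ℕ | ∀ x : ℝ, (m : ℝ) < x → x < m + 1 →
      Pool.Agent.H622R3.SP.AS δ K lam x} := ⟨_, rfl⟩
  have h2 : ∀ᶠ N : ℕ in atTop,
      c₀ * N ≤ (((Finset.range N).filter (fun m => m ∈ S)).card : ℝ) := by
    filter_upwards [h] with N hN
    refine hN.trans (le_of_eq ?_)
    congr 2
    ext m
    simp [hS]
  obtain ⟨c, κ, hc, hκ, Y₀, hY⟩ := Pool.Agent.H622R3.SP.mult S c₀ hc₀ h2 θ hθ0 hθ1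
  refine ⟨c, κ, hc, hκ, Y₀, fun Y hY₀ => ?_⟩
  obtain ⟨E, hE1, hE2, hE3⟩ := hY Y hY₀
  refine ⟨E, hE1, hE2, fun x hx1 hx2 hxE => (hE3 x hx1 hx2 hxE).trans ?_⟩
  apply Nat.cast_le.2
  refine Set.ncard_le_ncard ?_ ((Set.finite_Iic ⌊Y ^ θ⌋₊).subset fun k hk => Nat.le_floor hk.2.1)
  rintro k ⟨hk1, m, hm, h3, h4⟩
  refine ⟨?_, hk1, ?_⟩
  · rcases Nat.eq_zero_or_pos k with h0 | h0
    · rw [h0] at h3
      have : (0 : ℝ) ≤ m := Nat.cast_nonneg m
      simp only [Nat.cast_zero, zero_mul] at h3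
      linarith
    · exact h0
  · rw [hS] at hm
    exact hm _ h3 h4

end Pool.Agent.Results.MP_711652_nt.MultiplesOfAlmostAllReals
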