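import Pool.Agent.Y829.RS5

/-!
# Sieve weights find the expected number of primes in every interval of length `log X (log log X)^3`

The known long gaps between primes are found by putting a nonnegative weight on the integers
`X < n ≤ 2 X` for which the mean of `π(n + U) - π(n)` is small.  We consider weights
`w(n) = ∑_{d ≤ Q} c_d(n mod d)`, nonnegative sums of functions of period `d ≤ Q`, where `Q ^ 2` is at
most `X` divided by a power of `log X`: sieve weights of level almost `X^(1/2)`, for instance squares
of sums of functions of period at most `X^(1/4)` up to logarithms.  The coefficients are only bounded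
in mean square, and the mass of the weight may be smaller than `X` by a power of the logarithm.

For every such weight, and for EVERY length `U ≥ log X (log log X)^3`, the weighted mean of
`π(n + U) - π(n)` is asymptotic to `U / log X`, its expected value.  So no weight of this kind, with
no matter which congruence conditions, can show the existence of gaps longer than
`log X (log log X)^3`; in particular none can show that the gaps are longer than `(log p)^α`, `α > 1`.
(The weights behind the gaps which are known contain the product of the primes up to a multiple of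
`log X` as a factor of the modulus; for them see `MP_028722_nt.WeightsOverTheRecordModulus`.)

The proof is in `Pool/Agent/Y829` (library of the starting files, helper829).
-/

set_option autoImplicit false

open Finset

namespace Pool.Agent.Results.MP_711652_nt.SieveWeightsOnIntervals

/-- `w(n) = ∑_{d ≤ Q} c_d(n mod d)` -/
noncomputable def weight (Q : ℕ) (c : ℕ → ℕ → ℝ) (n : ℕ) : ℝ := ∑ d ∈ Icc 1 Q, c d (n % d)

/-- `s(d) = ∑_{a mod d} |c_d(a)|` -/
noncomputable def size (c : ℕ → ℕ → ℝ) (d : ℕ) : ℝ := ∑ a ∈ range d, |c d a|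

/-- the mass of the weight on `X < n ≤ 2 X` -/
noncomputable def mass (X Q : ℕ) (c : ℕ → ℕ → ℝ) : ℝ := ∑ n ∈ Ioc X (2 * X), weight Q c n

/-- the number of primes in `(n, n + U]` -/
noncomputable def primesIn (U n : ℕ) : ℝ := (((Ioc n (n + U)).filter Nat.Prime).card : ℝ)

/-- the hypotheses on the weight: the level is at most `X^(1/2) (log X)^(-B/2)`, the weight is
nonnegative, `∑_d s(d)^2 / d ≤ (log X)^K` and the mass is at least `X / (log X)^K` -/
def Good (K B X Q : ℕ) (c : ℕ → ℕ → ℝ) : Prop :=
  1 ≤ Q ∧ (Q : ℝ) ^ 2 * Real.log X ^ B ≤ X ∧ (∀ n, 0 ≤ weight Q c n) ∧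
    ∑ d ∈ Icc 1 Q, size c d ^ 2 / d ≤ Real.log X ^ K ∧ X / Real.log X ^ K ≤ mass X Q c

/-- **Sieve weights on short intervals.**  Let `K` be a natural number and `ε > 0`.  There are `B` and
`X₀` such that for all `X ≥ X₀`, all `U` with `log X (log log X)^3 ≤ U ≤ X` and every `Good` weight `w`
of level `Q` the mean of `π(n + U) - π(n)` over `X < n ≤ 2 X` with respect to `w` is `U / log X`, up to
a relative error at most `ε`. -/
theorem result : ∀ (K : ℕ) (ε : ℝ), 0 < ε → ∃ B X₀ : ℕ, ∀ X : ℕ, X₀ ≤ X →
    ∀ (Q : ℕ) (c : ℕ → ℕ → ℝ), Good K B X Q c →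
      ∀ U : ℕ, Real.log X * Real.log (Real.log X) ^ 3 ≤ U → U ≤ X →
        |∑ n ∈ Ioc X (2 * X), weight Q c n * primesIn U n - U / Real.log X * mass X Q c| ≤
          ε * (U / Real.log X * mass X Q c) := by
  intro K ε hε
  obtain ⟨b, hb⟩ := exists_pow_lt_of_lt_one hε (show (1 / 2 : ℝ) < 1 by norm_num)
  obtain ⟨B, X₀, h⟩ := Pool.Agent.Y829.RS.main_all K b
  refine ⟨B, max X₀ 3, ?_⟩
  intro X hX Q c hc U hU hUX
  obtain ⟨g1, g2, g3, g4, g5⟩ := hc
  have hX3 : (3 : ℝ) ≤ X := by exact_mod_cast (le_max_right _ _).trans hX
  have hlog : 0 ≤ Real.log X := Real.log_nonneg (by linarith)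
  have hmass : 0 ≤ mass X Q c := Finset.sum_nonneg fun n _ => g3 n
  have hmain := h X U Q ((le_max_left _ _).trans hX) hU hUX g1 g2 c g3 g4 g5
  refine (le_of_eq ?_).trans (hmain.trans ?_)
  · rfl
  · have h0 : 0 ≤ U / Real.log X * mass X Q c := by positivity
    exact mul_le_mul_of_nonneg_right hb.le h0

end Pool.Agent.Results.MP_711652_nt.SieveWeightsOnIntervals
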